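import Pool.Agent.H72.Cardy.Defs

/-! Linearity of the divided differences and of the alternants of the spin-basis specification. -/

set_option autoImplicit false
open Polynomial

namespace Pool.Agent.H5.LStrip

open Pool.Agent.H72.Cardy

theorem X_sub_mul_div (p : ℂ[X]) (x : ℂ) :
    (X - C x) * (p /ₘ (X - C x)) = p - C (p.eval x) := by
  have h := modByMonic_add_div p (X - C x)
  rw [modByMonic_X_sub_C_eq_C_eval] at h
  linear_combination h

theorem div_eq_of_mul {p r : ℂ[X]} {x c : ℂ} (h : (X - C x) * r = p - C c) :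
    p /ₘ (X - C x) = r := by
  have hc : p.eval x = c := by
    have := congrArg (eval x) h
    simp only [eval_mul, eval_sub, eval_X, eval_C, sub_self, zero_mul] at this
    linear_combination -this
  have h2 := X_sub_mul_div p x
  rw [hc, ← h] at h2
  exact mul_left_cancel₀ (X_sub_C_ne_zero x) h2

theorem div_add (p r : ℂ[X]) (x : ℂ) :
    (p + r) /ₘ (X - C x) = p /ₘ (X - C x) + r /ₘ (X - C x) := by
  apply div_eq_of_mul (c := p.eval x + r.eval x)
  rw [mul_add, X_sub_mul_div, X_sub_mul_div, C_add]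
  ring

theorem div_C_mul (c : ℂ) (p : ℂ[X]) (x : ℂ) :
    (C c * p) /ₘ (X - C x) = C c * (p /ₘ (X - C x)) := by
  apply div_eq_of_mul (c := c * p.eval x)
  rw [← mul_assoc, mul_comm _ (C c), mul_assoc, X_sub_mul_div, C_mul]
  ring

theorem div_zero' (x : ℂ) : (0 : ℂ[X]) /ₘ (X - C x) = 0 := by
  apply div_eq_of_mul (c := 0); simp

theorem div_C' (c x : ℂ) : (C c : ℂ[X]) /ₘ (X - C x) = 0 := by
  apply div_eq_of_mul (c := c); simp

theorem div_X' (x : ℂ) : (X : ℂ[X]) /ₘ (X - C x) = 1 := by
  apply div_eq_of_mul (c := x); simp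

theorem div_mul_self (p : ℂ[X]) (x : ℂ) : ((X - C x) * p) /ₘ (X - C x) = p := by
  apply div_eq_of_mul (c := 0); simp

theorem dd_add (p r : ℂ[X]) (l : List ℂ) : dd (p + r) l = dd p l + dd r l := by
  induction l generalizing p r with
  | nil => simp [dd]
  | cons x l ih =>
    cases l with
    | nil => simp [dd]
    | cons y l => simp only [dd]; rw [div_add, ih]

theorem dd_C_mul (c : ℂ) (p : ℂ[X]) (l : List ℂ) : dd (C c * p) l = c * dd p l := by
  induction l generalizing p with
  | nil => simp [dd]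
  | cons x l ih =>
    cases l with
    | nil => simp [dd]
    | cons y l => simp only [dd]; rw [div_C_mul, ih]

theorem dd_zero (l : List ℂ) : dd 0 l = 0 := by
  have := dd_C_mul 0 0 l
  simpa using this

/-- replace the last column -/
theorem D_eq_updateCol (h : ℂ[X]) (xs : List ℂ) (n : ℕ) (hn : xs.length = n + 1) :
    D h xs = ((Matrix.of fun i j : Fin xs.length => dd (pb j) (xs.take (i + 1))).updateCol
      ⟨n, by omega⟩ (fun i => dd h (xs.take (i + 1)))).det := by
  unfold D Alt
  congr 1
  ext i j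
  simp only [Matrix.of_apply, Matrix.updateCol_apply]
  by_cases hj : j = ⟨n, by omega⟩
  · rw [if_pos (by rw [hj]; simp; omega), if_pos hj]
  · rw [if_neg (fun h' => hj (Fin.ext (by simp; omega))), if_neg hj]

theorem D_add (g h : ℂ[X]) {xs : List ℂ} (hxs : xs ≠ []) : D (g + h) xs = D g xs + D h xs := by
  obtain ⟨n, hn⟩ : ∃ n, xs.length = n + 1 :=
    ⟨xs.length - 1, by have := List.length_pos_iff.mpr hxs; omega⟩
  rw [D_eq_updateCol _ xs n hn, D_eq_updateCol g xs n hn, D_eq_updateCol h xs n hn,
    ← Matrix.det_updateCol_add]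
  congr 2
  ext i
  exact dd_add _ _ _

theorem D_C_mul (c : ℂ) (h : ℂ[X]) {xs : List ℂ} (hxs : xs ≠ []) :
    D (C c * h) xs = c * D h xs := by
  obtain ⟨n, hn⟩ : ∃ n, xs.length = n + 1 :=
    ⟨xs.length - 1, by have := List.length_pos_iff.mpr hxs; omega⟩
  rw [D_eq_updateCol _ xs n hn, D_eq_updateCol h xs n hn, ← Matrix.det_updateCol_smul]
  congr 2
  ext i
  exact dd_C_mul _ _ _

theorem D_zero {xs : List ℂ} (hxs : xs ≠ []) : D 0 xs = 0 := by
  have := D_C_mul 0 0 hxs
  simpa using this

theorem D_sum {ι : Type*} (s : Finset ι) (f : ι → ℂ[X]) {xs : List ℂ} (hxs : xs ≠ []) :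
    D (∑ i ∈ s, f i) xs = ∑ i ∈ s, D (f i) xs := by
  classical
  induction s using Finset.induction_on with
  | empty => simp [D_zero hxs]
  | insert i s hi ih => rw [Finset.sum_insert hi, Finset.sum_insert hi, D_add _ _ hxs, ih]

/-- the earlier basis functions do not contribute -/
theorem D_pb (xs : List ℂ) (j : ℕ) (hj : j + 1 < xs.length) : D (pb j) xs = 0 := by
  rw [D_eq_updateCol _ xs (xs.length - 1) (by omega)]
  apply Matrix.det_zero_of_column_eq (i := ⟨j, by omega⟩) (j := ⟨xs.length - 1, by omega⟩)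
  · intro h
    have := congrArg Fin.val h
    simp at this
    omega
  · intro i
    rw [Matrix.updateCol_self, Matrix.updateCol_ne]
    · rfl
    · intro h
      have := congrArg Fin.val h
      simp at this
      omega

theorem D_pb_last (xs : List ℂ) (j : ℕ) (hj : xs.length = j + 1) : D (pb j) xs = S xs := by
  unfold D S Alt
  congr 1
  ext i k
  simp only [Matrix.of_apply]
  split_ifs with h
  · have : (k : ℕ) = j := by omega
    rw [this]
  · rfl

end Pool.Agent.H5.LStrip
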