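import Pool.Agent.H5.LStrip.DD
import Pool.Agent.H72.Cardy.Alt
import Pool.Agent.H72.Cardy.NZ

/-! The right-hand side of Cardy's formula in the L-shaped strip: recursions, base cases, degrees
(job RREC of helper72's specification). -/

set_option autoImplicit false
open Polynomial

namespace Pool.Agent.H5.LStrip

open Pool.Agent.H72.Cardy

variable {q : ℂ}

theorem q_inv (hq : q ^ 2 + q + 1 = 0) : q⁻¹ = q ^ 2 := by
  have hq0 : q ≠ 0 := by rintro rfl; norm_num at hq
  field_simp
  linear_combination -(q - 1) * hq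

theorem q_ne (hq : q ^ 2 + q + 1 = 0) : q ≠ 0 := by rintro rfl; norm_num at hq

theorem q_cube (hq : q ^ 2 + q + 1 = 0) : q ^ 3 = 1 := by linear_combination (q - 1) * hq

theorem X_inv (x : ℂ) : X' x⁻¹ = X' x := by unfold X'; rw [inv_inv]; ring

theorem X_q (hq : q ^ 2 + q + 1 = 0) (x : ℂ) : X' (q * x) = q * x + q ^ 2 * x⁻¹ := by
  unfold X'; rw [mul_inv, q_inv hq]

theorem X_qi (hq : q ^ 2 + q + 1 = 0) (x : ℂ) : X' (q⁻¹ * x) = q ^ 2 * x + q * x⁻¹ := by
  unfold X'; rw [mul_inv, inv_inv, q_inv hq]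

theorem tri_sum (hq : q ^ 2 + q + 1 = 0) (x : ℂ) :
    X' x + X' (q * x) + X' (q⁻¹ * x) = 0 := by
  rw [X_q hq, X_qi hq]
  unfold X'
  linear_combination (x + x⁻¹) * hq

theorem tri_pair (hq : q ^ 2 + q + 1 = 0) {x : ℂ} (hx : x ≠ 0) :
    X' x * X' (q * x) + X' x * X' (q⁻¹ * x) + X' (q * x) * X' (q⁻¹ * x) = -3 := by
  rw [X_q hq, X_qi hq]
  unfold X'
  have hy : x * x⁻¹ = 1 := mul_inv_cancel₀ hx
  generalize x⁻¹ = y at hy ⊢
  linear_combination ((x + y) ^ 2 + (x ^ 2 + y ^ 2) * (q - 1) + (q ^ 2 - q + 1) * x * y) * hq -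
    3 * hy

theorem T_eval (x : ℂ) : T.eval x = x ^ 3 - 3 * x := by
  unfold T
  simp only [eval_sub, eval_pow, eval_X, eval_mul, eval_ofNat]

theorem T_eval_X {x : ℂ} (hx : x ≠ 0) : T.eval (X' x) = x ^ 3 + x⁻¹ ^ 3 := by
  rw [T_eval]
  unfold X'
  have hy : x * x⁻¹ = 1 := mul_inv_cancel₀ hx
  generalize x⁻¹ = y at hy ⊢
  linear_combination 3 * (x + y) * hy

theorem tri_prod (hq : q ^ 2 + q + 1 = 0) {x : ℂ} (hx : x ≠ 0) :
    X' x * X' (q * x) * X' (q⁻¹ * x) = T.eval (X' x) := by
  rw [T_eval_X hx, X_q hq, X_qi hq]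
  unfold X'
  generalize x⁻¹ = y
  linear_combination (x + y) * ((q - 1) * (x ^ 2 + y ^ 2) + (q ^ 2 - q + 1) * x * y) * hq

theorem T_fac (hq : q ^ 2 + q + 1 = 0) {x : ℂ} (hx : x ≠ 0) :
    T - C (T.eval (X' x)) = (X - C (X' x)) * (X - C (X' (q * x))) * (X - C (X' (q⁻¹ * x))) := by
  have h1 := tri_sum hq x
  have h2 := tri_pair hq hx
  have h3 := tri_prod hq hx
  rw [← h3, C_mul, C_mul]
  have h1' := congrArg (C : ℂ → ℂ[X]) h1
  have h2' := congrArg (C : ℂ → ℂ[X]) h2
  simp only [C_add, C_mul, C_0, C_neg] at h1' h2'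
  have h3' : (C 3 : ℂ[X]) = 3 := map_ofNat C 3
  rw [h3'] at h2'
  unfold T
  linear_combination X ^ 2 * h1' - X * h2'

theorem T_q (hq : q ^ 2 + q + 1 = 0) {x : ℂ} (hx : x ≠ 0) :
    T.eval (X' (q * x)) = T.eval (X' x) := by
  rw [T_eval_X hx, T_eval_X (mul_ne_zero (q_ne hq) hx), mul_inv, mul_pow, mul_pow, inv_pow q,
    q_cube hq]
  simp

theorem Rodd_perm (z z' b b' : List ℂ) (α d : ℂ) (h1 : z.Perm z') (h2 : b.Perm b') :
    Rodd q z α b d = Rodd q z' α b' d := by
  have hdbl : ∀ {l l' : List ℂ}, l.Perm l' → (dbl l).Perm (dbl l') := by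
    intro l l' h
    induction h with
    | nil => rfl
    | cons x _ ih => exact (ih.cons x).cons x
    | swap x y l =>
      simp only [dbl]
      have e1 : (y :: y :: x :: x :: dbl l) = ([y, y] ++ [x, x]) ++ dbl l := rfl
      have e2 : (x :: x :: y :: y :: dbl l) = ([x, x] ++ [y, y]) ++ dbl l := rfl
      rw [e1, e2]
      exact (List.perm_append_comm).append_right _
    | trans _ _ ih1 ih2 => exact ih1.trans ih2
  unfold Rodd
  have e1 : prodT (b.map X') = prodT (b'.map X') :=
    ((h2.map X').map _).prod_eq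
  have e2 : prodX (z.map X') = prodX (z'.map X') := ((h1.map X').map _).prod_eq
  rw [e1, e2, Sx_perm (h1.map X')]
  apply D_perm
  exact (h1.map X').append (((hdbl (h2.map X')).append_right _).cons _)

theorem Reven_perm (z z' b b' : List ℂ) (v d : ℂ) (h1 : z.Perm z') (h2 : b.Perm b') :
    Reven z v b d = Reven z' v b' d := by
  have hdbl : ∀ {l l' : List ℂ}, l.Perm l' → (dbl l).Perm (dbl l') := by
    intro l l' h
    induction h with
    | nil => rfl
    | cons x _ ih => exact (ih.cons x).cons x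
    | swap x y l =>
      simp only [dbl]
      have e1 : (y :: y :: x :: x :: dbl l) = ([y, y] ++ [x, x]) ++ dbl l := rfl
      have e2 : (x :: x :: y :: y :: dbl l) = ([x, x] ++ [y, y]) ++ dbl l := rfl
      rw [e1, e2]
      exact (List.perm_append_comm).append_right _
    | trans _ _ ih1 ih2 => exact ih1.trans ih2
  unfold Reven
  have e1 : prodT (b.map X') = prodT (b'.map X') :=
    ((h2.map X').map _).prod_eq
  have e2 : prodX (z.map X') = prodX (z'.map X') := ((h1.map X').map _).prod_eq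
  rw [e1, e2, Sx_perm ((h1.map X').append_right _)]
  apply D_perm
  exact (h1.map X').append ((hdbl (h2.map X')).append_right _)

theorem dbl_append (l l' : List ℂ) : dbl (l ++ l') = dbl l ++ dbl l' := by
  induction l with
  | nil => rfl
  | cons x l ih => simp [dbl, ih]

theorem prodX_append (l l' : List ℂ) : prodX (l ++ l') = prodX l * prodX l' := by
  simp [prodX]

theorem prodT_append (l l' : List ℂ) : prodT (l ++ l') = prodT l * prodT l' := by
  simp [prodT]

theorem prod_perm_sub {l l' : List ℂ} (h : l.Perm l') (c : ℂ) :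
    (l.map fun y => y - c).prod = (l'.map fun y => y - c).prod := (h.map _).prod_eq

theorem Rodd_i (hq : q ^ 2 + q + 1 = 0)
    (z : List ℂ) (x : ℂ) (b : List ℂ) (d : ℂ) (h0 : NZ (z ++ b ++ [x, d])) :
    Rodd q (z ++ [x]) (q * x) b d =
      ((z.map X' ++ (dbl (b.map X') ++ [X' d])).map fun t => t - X' (q⁻¹ * x)).prod *
        Reven z x b d := by
  have hx : x ≠ 0 := h0 x (by simp)
  unfold Rodd Reven
  set g : ℂ[X] := prodT (b.map X') * prodX (z.map X') * Sx (z.map X' ++ [X' x]) with hg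
  have e1 : (X - C (X' (q * x))) * (X - C (X' (q * (q * x)))) * prodT (b.map X') *
      prodX ((z ++ [x]).map X') * Sx ((z ++ [x]).map X') = (T - C (T.eval (X' x))) * g := by
    rw [T_fac hq hx, hg]
    have : q * (q * x) = q⁻¹ * x := by rw [q_inv hq]; ring
    rw [this, List.map_append, prodX_append]
    simp only [List.map_cons, List.map_nil]
    have : prodX [X' x] = X - C (X' x) := by simp [prodX]
    rw [this]
    ring
  have e2 : ((z ++ [x]).map X' ++ (X' (q * x) :: (dbl (b.map X') ++ [X' d]))).Perm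
      ((z.map X' ++ (dbl (b.map X') ++ [X' d])) ++ [X' x, X' (q * x)]) := by
    rw [List.map_append]
    simp only [List.map_cons, List.map_nil, List.append_assoc]
    apply List.Perm.append_left
    have : ([X' x] ++ X' (q * x) :: (dbl (b.map X') ++ [X' d])) =
      [X' x, X' (q * x)] ++ (dbl (b.map X') ++ [X' d]) := rfl
    rw [this, ← List.append_assoc (dbl _)]
    exact List.perm_append_comm
  rw [e1, D_perm _ e2, D_fuse g _ (X' x) (X' (q * x)) (X' (q⁻¹ * x)) _ (tri_sum hq x)
    (tri_pair hq hx) (tri_prod hq hx) (by simp)]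

theorem Rodd_ii (hq : q ^ 2 + q + 1 = 0)
    (z : List ℂ) (α : ℂ) (b : List ℂ) (d : ℂ) (h0 : NZ (z ++ b ++ [α, d])) :
    Rodd q z α ((q * α) :: b) d =
      ((z.map X' ++ (X' (q * α) :: (dbl (b.map X') ++ [X' d]))).map
        fun t => t - X' (q⁻¹ * α)).prod * Rodd q z (q * α)⁻¹ b d := by
  have hα : α ≠ 0 := h0 α (by simp)
  have hq0 := q_ne hq
  unfold Rodd
  have e0 : X' (q * (q * α)⁻¹) = X' α := by
    rw [mul_inv, ← mul_assoc, mul_inv_cancel₀ hq0, one_mul, X_inv]
  rw [X_inv, e0]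
  set g : ℂ[X] := (X - C (X' (q * α))) * (X - C (X' α)) * prodT (b.map X') *
    prodX (z.map X') * Sx (z.map X') with hg
  have e1 : (X - C (X' α)) * (X - C (X' (q * α))) * prodT (((q * α) :: b).map X') *
      prodX (z.map X') * Sx (z.map X') = (T - C (T.eval (X' α))) * g := by
    rw [hg, List.map_cons]
    have : prodT (X' (q * α) :: b.map X') = (T - C (T.eval (X' (q * α)))) * prodT (b.map X') := by
      simp [prodT]
    rw [this, T_q hq hα]
    ring
  have e2 : (z.map X' ++ (X' α :: (dbl (((q * α) :: b).map X') ++ [X' d]))).Perm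
      ((z.map X' ++ (X' (q * α) :: (dbl (b.map X') ++ [X' d]))) ++ [X' α, X' (q * α)]) := by
    simp only [List.map_cons, dbl, List.append_assoc, List.cons_append, List.nil_append]
    apply List.Perm.append_left
    have e3 : X' α :: X' (q * α) :: X' (q * α) :: (dbl (b.map X') ++ [X' d]) =
      [X' α, X' (q * α)] ++ (X' (q * α) :: (dbl (b.map X') ++ [X' d])) := rfl
    have e4 : X' (q * α) :: (dbl (b.map X') ++ X' d :: [X' α, X' (q * α)]) =
      (X' (q * α) :: (dbl (b.map X') ++ [X' d])) ++ [X' α, X' (q * α)] := by simp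
    rw [e3, e4]
    exact List.perm_append_comm
  rw [e1, D_perm _ e2, D_fuse g _ (X' α) (X' (q * α)) (X' (q⁻¹ * α)) _ (tri_sum hq α)
    (tri_pair hq hα) (tri_prod hq hα) (by simp)]

theorem Reven_iii (hq : q ^ 2 + q + 1 = 0)
    (z : List ℂ) (x : ℂ) (b : List ℂ) (d : ℂ) (h0 : NZ (z ++ b ++ [x, d])) :
    Reven (z ++ [x]) (q⁻¹ * x) b d =
      ((z.map X').map fun t => t - X' (q * x)).prod * Rodd q z x b d := by
  have hx : x ≠ 0 := h0 x (by simp)
  unfold Rodd Reven
  have h2 := tri_pair hq hx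
  have h3 := tri_prod hq hx
  have e0 : (z ++ [x]).map X' ++ [X' (q⁻¹ * x)] = z.map X' ++ [X' x, X' (q⁻¹ * x)] := by simp
  rw [e0, Sx_fuse (z.map X') (X' x) (X' (q⁻¹ * x)) (X' (q * x)) (T.eval (X' x))
    (by linear_combination tri_sum hq x) (by linear_combination h2) (by linear_combination h3)]
  have e1 : prodX ((z ++ [x]).map X') = prodX (z.map X') * (X - C (X' x)) := by simp [prodX]
  rw [e1]
  have e2 : prodT (b.map X') * (prodX (z.map X') * (X - C (X' x))) *
      (C ((z.map X').map fun y => y - X' (q * x)).prod * (X - C (X' (q * x))) *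
        Sx (z.map X')) = C ((z.map X').map fun y => y - X' (q * x)).prod *
      ((X - C (X' x)) * (X - C (X' (q * x))) * prodT (b.map X') *
        prodX (z.map X') * Sx (z.map X')) := by ring
  rw [e2, D_C_mul _ _ (by simp)]
  congr 2
  simp

theorem Rodd_v (hq : q ^ 2 + q + 1 = 0)
    (z : List ℂ) (α : ℂ) (b : List ℂ) (x : ℂ) (h0 : NZ (z ++ b ++ [α, x])) :
    Rodd q z α (b ++ [x]) (q * x⁻¹) =
      ((z.map X' ++ (X' α :: (dbl (b.map X') ++ [X' x]))).map
        fun t => t - X' (q⁻¹ * x⁻¹)).prod * Rodd q z α b x := by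
  have hx : x⁻¹ ≠ 0 := inv_ne_zero (h0 x (by simp))
  unfold Rodd
  set g : ℂ[X] := (X - C (X' α)) * (X - C (X' (q * α))) * prodT (b.map X') *
    prodX (z.map X') * Sx (z.map X') with hg
  have e1 : (X - C (X' α)) * (X - C (X' (q * α))) * prodT ((b ++ [x]).map X') *
      prodX (z.map X') * Sx (z.map X') = (T - C (T.eval (X' x⁻¹))) * g := by
    rw [hg, List.map_append, prodT_append]
    have : prodT ([x].map X') = (T - C (T.eval (X' x))) := by simp [prodT]
    rw [this, X_inv]
    ring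
  have e2 : (z.map X' ++ (X' α :: (dbl ((b ++ [x]).map X') ++ [X' (q * x⁻¹)]))).Perm
      ((z.map X' ++ (X' α :: (dbl (b.map X') ++ [X' x]))) ++ [X' x⁻¹, X' (q * x⁻¹)]) := by
    rw [List.map_append, dbl_append, X_inv]
    simp [dbl]
  rw [e1, D_perm _ e2, D_fuse g _ (X' x⁻¹) (X' (q * x⁻¹)) (X' (q⁻¹ * x⁻¹)) _ (tri_sum hq _)
    (tri_pair hq hx) (tri_prod hq hx) (by simp)]

theorem Reven_v (hq : q ^ 2 + q + 1 = 0)
    (z : List ℂ) (v : ℂ) (b : List ℂ) (x : ℂ) (h0 : NZ (z ++ b ++ [v, x])) :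
    Reven z v (b ++ [x]) (q * x⁻¹) =
      ((z.map X' ++ (dbl (b.map X') ++ [X' x])).map
        fun t => t - X' (q⁻¹ * x⁻¹)).prod * Reven z v b x := by
  have hx : x⁻¹ ≠ 0 := inv_ne_zero (h0 x (by simp))
  unfold Reven
  set g : ℂ[X] := prodT (b.map X') * prodX (z.map X') * Sx (z.map X' ++ [X' v]) with hg
  have e1 : prodT ((b ++ [x]).map X') * prodX (z.map X') * Sx (z.map X' ++ [X' v]) =
      (T - C (T.eval (X' x⁻¹))) * g := by
    rw [hg, List.map_append, prodT_append]
    have : prodT ([x].map X') = (T - C (T.eval (X' x))) := by simp [prodT]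
    rw [this, X_inv]
    ring
  have e2 : (z.map X' ++ (dbl ((b ++ [x]).map X') ++ [X' (q * x⁻¹)])).Perm
      ((z.map X' ++ (dbl (b.map X') ++ [X' x])) ++ [X' x⁻¹, X' (q * x⁻¹)]) := by
    rw [List.map_append, dbl_append, X_inv]
    simp [dbl]
  rw [e1, D_perm _ e2, D_fuse g _ (X' x⁻¹) (X' (q * x⁻¹)) (X' (q⁻¹ * x⁻¹)) _ (tri_sum hq _)
    (tri_pair hq hx) (tri_prod hq hx) (by simp)]

theorem Rodd_vi (hq : q ^ 2 + q + 1 = 0)
    (z : List ℂ) (α : ℂ) (b : List ℂ) (x d : ℂ) (h0 : NZ (z ++ b ++ [α, x, d]))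
    (hx : x⁻¹ = q * x) :
    Rodd q z α (b ++ [x]) d =
      ((z.map X' ++ (X' α :: (dbl (b.map X') ++ [X' d]))).map
        fun t => t - X' (q⁻¹ * x)).prod * Rodd q z α b d := by
  have hx0 : x ≠ 0 := h0 x (by simp)
  unfold Rodd
  set g : ℂ[X] := (X - C (X' α)) * (X - C (X' (q * α))) * prodT (b.map X') *
    prodX (z.map X') * Sx (z.map X') with hg
  have e1 : (X - C (X' α)) * (X - C (X' (q * α))) * prodT ((b ++ [x]).map X') *
      prodX (z.map X') * Sx (z.map X') = (T - C (T.eval (X' x))) * g := by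
    rw [hg, List.map_append, prodT_append]
    have : prodT ([x].map X') = (T - C (T.eval (X' x))) := by simp [prodT]
    rw [this]
    ring
  have e3 : X' (q * x) = X' x := by rw [← hx, X_inv]
  have e2 : (z.map X' ++ (X' α :: (dbl ((b ++ [x]).map X') ++ [X' d]))).Perm
      ((z.map X' ++ (X' α :: (dbl (b.map X') ++ [X' d]))) ++ [X' x, X' (q * x)]) := by
    rw [List.map_append, dbl_append, e3]
    simp only [List.map_cons, List.map_nil, dbl, List.append_assoc, List.cons_append,
      List.nil_append]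
    apply List.Perm.append_left
    apply List.Perm.cons
    apply List.Perm.append_left
    exact (List.perm_append_comm (l₁ := [X' x, X' x]) (l₂ := [X' d]))
  rw [e1, D_perm _ e2, D_fuse g _ (X' x) (X' (q * x)) (X' (q⁻¹ * x)) _ (tri_sum hq _)
    (tri_pair hq hx0) (tri_prod hq hx0) (by simp)]

/-! ### Small cases -/

theorem pb_zero : pb 0 = 1 := by simp [pb]
theorem pb_one : pb 1 = X := by simp [pb]
theorem pb_two : pb 2 = T := by simp [pb]
theorem pb_three : pb 3 = T * X := by simp [pb]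

theorem pb_even (j : ℕ) : pb (2 * j) = T ^ j := by
  simp [pb]

theorem div_one'' (x : ℂ) : (1 : ℂ[X]) /ₘ (X - C x) = 0 := by
  have := div_C' 1 x
  simpa using this

theorem Sx_single (x : ℂ) : Sx [x] = 1 := by
  unfold Sx
  refine (Matrix.det_fin_two _).trans ?_
  simp only [Matrix.of_apply, List.length_cons, List.length_nil, Fin.val_zero, Fin.val_one,
    List.take_succ_cons, List.take_zero]
  norm_num [quo, dd, pb_zero, pb_one, div_X', div_one'']

theorem D_one (h : ℂ[X]) (x : ℂ) : D h [x] = h.eval x := by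
  unfold D Alt
  refine (Matrix.det_fin_one _).trans ?_
  simp [dd]

theorem dd_one2 (x y : ℂ) (l : List ℂ) : dd 1 (x :: y :: l) = 0 := by
  simp only [dd]
  rw [div_one'', dd_zero]

theorem D_three (h : ℂ[X]) (x y w : ℂ) : D h [x, y, w] = dd h [x, y, w] := by
  unfold D Alt
  refine (Matrix.det_fin_three _).trans ?_
  simp only [Matrix.of_apply, List.length_cons, List.length_nil, Fin.val_zero, Fin.val_one,
    Fin.val_two, List.take_succ_cons, List.take_zero, List.take_nil]
  norm_num [pb_zero, pb_one, dd_one2]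
  simp only [dd, div_X', div_one'']
  simp

theorem det5 (M : Matrix (Fin 5) (Fin 5) ℂ) (h00 : M 0 0 = 1) (h10 : M 1 0 = 0) (h20 : M 2 0 = 0)
    (h30 : M 3 0 = 0) (h40 : M 4 0 = 0) (h11 : M 1 1 = 1) (h21 : M 2 1 = 0) (h31 : M 3 1 = 0)
    (h41 : M 4 1 = 0) :
    M.det = M 2 2 * (M 3 3 * M 4 4 - M 3 4 * M 4 3) - M 2 3 * (M 3 2 * M 4 4 - M 3 4 * M 4 2) +
      M 2 4 * (M 3 2 * M 4 3 - M 3 3 * M 4 2) := by
  rw [Matrix.det_succ_column_zero, Fin.sum_univ_five, h00, h10, h20, h30, h40]
  simp only [Fin.val_zero, pow_zero, mul_one, one_mul, mul_zero, zero_mul, add_zero]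
  rw [Matrix.det_succ_column_zero, Fin.sum_univ_four]
  simp only [Matrix.submatrix_apply]
  have e1 : ((0 : Fin 5).succAbove (0 : Fin 4)) = 1 := rfl
  have e2 : ((0 : Fin 5).succAbove (1 : Fin 4)) = 2 := rfl
  have e3 : ((0 : Fin 5).succAbove (2 : Fin 4)) = 3 := rfl
  have e4 : ((0 : Fin 5).succAbove (3 : Fin 4)) = 4 := rfl
  have f1 : (Fin.succ (0 : Fin 4)) = 1 := rfl
  rw [e1, e2, e3, e4, f1, h11, h21, h31, h41]
  simp only [Fin.val_zero, pow_zero, mul_one, one_mul, mul_zero, zero_mul, add_zero]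
  rw [Matrix.det_fin_three]
  simp only [Matrix.submatrix_apply]
  have g1 : ((0 : Fin 5).succAbove ((0 : Fin 4).succAbove (0 : Fin 3))) = 2 := rfl
  have g2 : ((0 : Fin 5).succAbove ((0 : Fin 4).succAbove (1 : Fin 3))) = 3 := rfl
  have g3 : ((0 : Fin 5).succAbove ((0 : Fin 4).succAbove (2 : Fin 3))) = 4 := rfl
  have k1 : Fin.succ (Fin.succ (0 : Fin 3)) = 2 := rfl
  have k2 : Fin.succ (Fin.succ (1 : Fin 3)) = 3 := rfl
  have k3 : Fin.succ (Fin.succ (2 : Fin 3)) = 4 := rfl
  rw [g1, g2, g3, k1, k2, k3]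
  ring

theorem div_T (x : ℂ) : T /ₘ (X - C x) = X ^ 2 + C x * X + C (x ^ 2 - 3) := by
  apply div_eq_of_mul (c := x ^ 3 - 3 * x)
  unfold T
  simp only [C_sub, C_mul, C_pow]
  have h3 : (C 3 : ℂ[X]) = 3 := map_ofNat C 3
  rw [h3]; ring

theorem div_TX (x : ℂ) : (T * X) /ₘ (X - C x) =
    X ^ 3 + C x * X ^ 2 + C (x ^ 2 - 3) * X + C (x ^ 3 - 3 * x) := by
  apply div_eq_of_mul (c := x ^ 4 - 3 * x ^ 2)
  unfold T
  simp only [C_sub, C_mul, C_pow]
  have h3 : (C 3 : ℂ[X]) = 3 := map_ofNat C 3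
  rw [h3]; ring

theorem div_quad (a b x : ℂ) : (X ^ 2 + C a * X + C b) /ₘ (X - C x) = X + C (x + a) := by
  apply div_eq_of_mul (c := x ^ 2 + a * x + b)
  simp only [C_add, C_mul, C_pow]
  ring

theorem div_lin (a x : ℂ) : (X + C a) /ₘ (X - C x) = 1 := by
  apply div_eq_of_mul (c := x + a)
  simp only [C_add]
  ring

theorem div_cub (a b c x : ℂ) : (X ^ 3 + C a * X ^ 2 + C b * X + C c) /ₘ (X - C x) =
    X ^ 2 + C (x + a) * X + C (x ^ 2 + a * x + b) := by
  apply div_eq_of_mul (c := x ^ 3 + a * x ^ 2 + b * x + c)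
  simp only [C_add, C_mul, C_pow]
  ring

theorem D_five (h : ℂ[X]) (x y u v w : ℂ) : D h [x, y, u, v, w] =
    (x + y + u) * ((x + y + u + v) * dd h [x, y, u, v, w] - dd h [x, y, u, v]) -
    (x ^ 2 + y ^ 2 + u ^ 2 + x * y + x * u + y * u - 3) * dd h [x, y, u, v, w] +
    dd h [x, y, u] := by
  have key : D h [x, y, u, v, w] = (Matrix.of fun i j : Fin 5 =>
      dd (if (j : ℕ) + 1 = 5 then h else pb j) ([x, y, u, v, w].take (i + 1))).det := rfl
  rw [key, det5]
  · simp only [Matrix.of_apply]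
    have v2 : ((2 : Fin 5) : ℕ) = 2 := rfl
    have v3 : ((3 : Fin 5) : ℕ) = 3 := rfl
    have v4 : ((4 : Fin 5) : ℕ) = 4 := rfl
    rw [v2, v3, v4]
    norm_num
    rw [pb_two, pb_three]
    simp only [dd]
    rw [div_T, div_TX, div_quad, div_cub, div_lin, div_quad, div_one'']
    simp only [eval_add, eval_pow, eval_X, eval_mul, eval_C, eval_one, eval_zero]
    rw [div_lin]
    simp only [eval_one]
    ring
  all_goals simp only [Matrix.of_apply]
  all_goals norm_num [pb_zero, pb_one, dd_one2]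
  all_goals simp only [dd, div_X', div_one'', eval_one, eval_zero, div_zero']

theorem Rodd_base (z α d : ℂ) (_h0 : NZ [z, α, d]) :
    Rodd q [z] α [] d = X' d - X' (q * α) := by
  unfold Rodd
  simp only [List.map_cons, List.map_nil, dbl, List.nil_append, List.cons_append]
  rw [Sx_single, D_three]
  have e1 : (X - C (X' α)) * (X - C (X' (q * α))) * prodT [] * prodX [X' z] * 1 =
      (X - C (X' z)) * ((X - C (X' α)) * (X - C (X' (q * α)))) := by
    simp [prodT, prodX]; ring
  rw [e1]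
  simp only [dd]
  rw [div_mul_self, div_mul_self]
  simp

theorem Reven_base (v d : ℂ) : Reven [] v [] d = 1 := by
  unfold Reven
  simp only [List.map_nil, dbl, List.nil_append]
  rw [Sx_single, D_one]
  simp [prodT, prodX]

theorem D_T_pow_mul_prodT (l : List ℂ) : ∀ (i : ℕ) (xs : List ℂ),
    2 * (i + l.length) + 1 < xs.length → D (T ^ i * prodT l) xs = 0 := by
  induction l with
  | nil =>
    intro i xs h
    have : T ^ i * prodT [] = pb (2 * i) := by rw [pb_even]; simp [prodT]
    rw [this]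
    exact D_pb xs _ (by simpa using h)
  | cons x l ih =>
    intro i xs h
    have hxs : xs ≠ [] := by rintro rfl; simp at h
    have : T ^ i * prodT (x :: l) = T ^ (i + 1) * prodT l +
        C (-(T.eval x)) * (T ^ i * prodT l) := by
      simp only [prodT, List.map_cons, List.prod_cons, C_neg]
      ring
    rw [this, D_add _ _ hxs, D_C_mul _ _ hxs, ih, ih]
    · simp
    · simp only [List.length_cons] at h ⊢; omega
    · simp only [List.length_cons] at h ⊢; omega

theorem D_T_pow_mul_prodT' (l : List ℂ) : ∀ (i : ℕ) (xs : List ℂ),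
    xs.length = 2 * (i + l.length) + 1 → D (T ^ i * prodT l) xs = S xs := by
  induction l with
  | nil =>
    intro i xs h
    have : T ^ i * prodT [] = pb (2 * i) := by rw [pb_even]; simp [prodT]
    rw [this]
    exact D_pb_last xs _ (by simpa using h)
  | cons x l ih =>
    intro i xs h
    have hxs : xs ≠ [] := by rintro rfl; simp at h
    have : T ^ i * prodT (x :: l) = T ^ (i + 1) * prodT l +
        C (-(T.eval x)) * (T ^ i * prodT l) := by
      simp only [prodT, List.map_cons, List.prod_cons, C_neg]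
      ring
    rw [this, D_add _ _ hxs, D_C_mul _ _ hxs, ih, D_T_pow_mul_prodT]
    · simp
    · simp only [List.length_cons] at h ⊢; omega
    · simp only [List.length_cons] at h ⊢; omega

theorem length_dbl (l : List ℂ) : (dbl l).length = 2 * l.length := by
  induction l with
  | nil => rfl
  | cons x l ih => simp [dbl, ih]; ring

/-- the closure is the sum rule -/
theorem Reven_nil (v : ℂ) (b : List ℂ) (d : ℂ) :
    Reven [] v b d = S (dbl (b.map X') ++ [X' d]) := by
  unfold Reven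
  simp only [List.map_nil, List.nil_append]
  rw [Sx_single]
  have := D_T_pow_mul_prodT' (b.map X') 0 (dbl (b.map X') ++ [X' d])
    (by simp [length_dbl])
  rw [← this]
  congr 1
  simp [prodX]

/-! ### Degrees -/

theorem natDegree_T_le : T.natDegree ≤ 3 := by
  unfold T; compute_degree

theorem natDegree_prodT_le (l : List ℂ) : (prodT l).natDegree ≤ 3 * l.length := by
  induction l with
  | nil => simp [prodT]
  | cons x l ih =>
    have : prodT (x :: l) = (T - C (T.eval x)) * prodT l := by simp [prodT]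
    rw [this]
    have h1 : (T - C (T.eval x)).natDegree ≤ 3 :=
      (natDegree_sub_le _ _).trans (by simp [natDegree_T_le])
    have := natDegree_mul_le_of_le h1 ih
    simp only [List.length_cons]
    omega

theorem natDegree_prodX_le (l : List ℂ) : (prodX l).natDegree ≤ l.length := by
  induction l with
  | nil => simp [prodX]
  | cons x l ih =>
    have : prodX (x :: l) = (X - C x) * prodX l := by simp [prodX]
    rw [this]
    have h1 : (X - C x).natDegree ≤ 1 := natDegree_X_sub_C_le x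
    have := natDegree_mul_le_of_le h1 ih
    simp only [List.length_cons]
    omega

/-- a polynomial in `α + 1/α` -/
theorem eval_X'_poly (P : ℂ[X]) (m : ℕ) (hP : P.natDegree ≤ m) :
    ∃ Q : ℂ[X], Q.natDegree ≤ 2 * m ∧ ∀ α, α ≠ 0 → α ^ m * P.eval (X' α) = Q.eval α := by
  refine ⟨∑ j ∈ Finset.range (m + 1), C (P.coeff j) * (X ^ (m - j) * (X ^ 2 + 1) ^ j), ?_, ?_⟩
  · apply natDegree_sum_le_of_forall_le
    intro j hj
    have hj' : j ≤ m := by simpa [Nat.lt_succ_iff] using hj
    refine (natDegree_C_mul_le _ _).trans ?_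
    have h1 : (X ^ (m - j) : ℂ[X]).natDegree ≤ m - j := natDegree_X_pow_le _
    have h2 : ((X ^ 2 + 1 : ℂ[X]) ^ j).natDegree ≤ j * 2 := by
      apply natDegree_pow_le_of_le
      compute_degree
    have := natDegree_mul_le_of_le h1 h2
    omega
  · intro α hα
    rw [eval_finsetSum, eval_eq_sum_range' (Nat.lt_succ_of_le hP), Finset.mul_sum]
    apply Finset.sum_congr rfl
    intro j hj
    have hj' : j ≤ m := by simpa [Nat.lt_succ_iff] using hj
    simp only [eval_mul, eval_C, eval_pow, eval_X, eval_add, eval_one]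
    have : α ^ m = α ^ (m - j) * α ^ j := by rw [← pow_add]; congr 1; omega
    rw [this]
    have h2 : (α ^ 2 + 1) ^ j = α ^ j * (X' α) ^ j := by
      rw [← mul_pow]; congr 1; unfold X'; field_simp
    rw [h2]; ring

theorem Rodd_degα (hq : q ^ 2 + q + 1 = 0) (n : ℕ)
    (z b : List ℂ) (d : ℂ) (hn : z.length + 2 * b.length + 1 = 2 * n) :
    ∃ P : ℂ[X], P.natDegree ≤ 2 * n ∧ ∀ α, α ≠ 0 → α ^ n * Rodd q z α b d = P.eval α := by
  have hn1 : 1 ≤ n := by omega
  set g : ℂ[X] := prodT (b.map X') * prodX (z.map X') * Sx (z.map X') with hg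
  set xs : List ℂ := z.map X' ++ (dbl (b.map X') ++ [X' d]) with hxs
  have hlen : xs.length = 2 * n := by
    rw [hxs]; simp [length_dbl]; omega
  obtain ⟨P1, h1, h1'⟩ := D_deg' (X * g) xs n hlen hn1
  obtain ⟨P2, h2, h2'⟩ := D_deg' g xs n hlen hn1
  obtain ⟨Q1, k1, k1'⟩ := eval_X'_poly P1 (n - 1) h1
  obtain ⟨Q2, k2, k2'⟩ := eval_X'_poly P2 (n - 1) h2
  refine ⟨X * Q1 - (C q * X ^ 2 + C q⁻¹) * Q2, ?_, ?_⟩
  · have e1 : (X * Q1).natDegree ≤ 2 * n :=
      (natDegree_mul_le_of_le natDegree_X_le k1).trans (by omega)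
    have e2 : ((C q * X ^ 2 + C q⁻¹) * Q2).natDegree ≤ 2 * n := by
      have : (C q * X ^ 2 + C q⁻¹ : ℂ[X]).natDegree ≤ 2 := by compute_degree
      exact (natDegree_mul_le_of_le this k2).trans (by omega)
    exact (natDegree_sub_le_of_le e1 e2).trans (by simp)
  · intro α hα
    have hR : Rodd q z α b d = P1.eval (X' α) - X' (q * α) * P2.eval (X' α) := by
      unfold Rodd
      have e1 : (X - C (X' α)) * (X - C (X' (q * α))) * prodT (b.map X') * prodX (z.map X') *
          Sx (z.map X') = (X - C (X' α)) * (X * g) + C (-(X' (q * α))) * ((X - C (X' α)) * g) := by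
        rw [hg, C_neg]; ring
      have e2 : (z.map X' ++ (X' α :: (dbl (b.map X') ++ [X' d]))).Perm (xs ++ [X' α]) := by
        rw [hxs, List.append_assoc]
        apply List.Perm.append_left
        exact List.perm_append_comm (l₁ := [X' α]) (l₂ := dbl (b.map X') ++ [X' d])
      rw [e1, D_add _ _ (by simp), D_C_mul _ _ (by simp), D_perm _ e2, D_perm _ e2, h1', h2']
      ring
    rw [hR]
    simp only [eval_sub, eval_mul, eval_X, eval_add, eval_C, eval_pow]
    rw [← k1' α hα, ← k2' α hα]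
    have h3 : α ^ n = α * α ^ (n - 1) := by rw [← pow_succ']; congr 1; omega
    have h4 : q * α ^ 2 + q⁻¹ = α * X' (q * α) := by
      unfold X'; rw [mul_inv]; field_simp [q_ne hq]
    rw [h3, h4]; ring

theorem Rodd_degd (n : ℕ) (z b : List ℂ) (α : ℂ)
    (hn : z.length + 2 * b.length + 1 = 2 * n) :
    ∃ P : ℂ[X], P.natDegree ≤ n ∧ ∀ d, Rodd q z α b d = P.eval (X' d) := by
  set h : ℂ[X] := (X - C (X' α)) * (X - C (X' (q * α))) * prodT (b.map X') *
    prodX (z.map X') * Sx (z.map X') with hh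
  set xs : List ℂ := z.map X' ++ (X' α :: dbl (b.map X')) with hxs
  have hlen : xs.length = 2 * n := by
    rw [hxs]; simp [length_dbl]; omega
  have hd : h.natDegree ≤ 3 * n := by
    have h1 : ((X - C (X' α)) * (X - C (X' (q * α))) : ℂ[X]).natDegree ≤ 1 + 1 :=
      natDegree_mul_le_of_le (natDegree_X_sub_C_le _) (natDegree_X_sub_C_le _)
    have h2 := natDegree_mul_le_of_le h1 (natDegree_prodT_le (b.map X'))
    have h3 := natDegree_mul_le_of_le h2 (natDegree_prodX_le (z.map X'))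
    have h4 := natDegree_mul_le_of_le h3 (Sx_natDegree (z.map X'))
    rw [hh]
    refine h4.trans ?_
    simp only [List.length_map]
    omega
  obtain ⟨P, hP, hP'⟩ := D_deg h xs n hlen hd
  refine ⟨P, hP, fun d => ?_⟩
  rw [← hP', hxs]
  unfold Rodd
  rw [← hh]
  simp

theorem Reven_degd (n : ℕ) (z b : List ℂ) (v : ℂ) (hn : z.length + 2 * b.length = 2 * n) :
    ∃ P : ℂ[X], P.natDegree ≤ n ∧ ∀ d, Reven z v b d = P.eval (X' d) := by
  set h : ℂ[X] := prodT (b.map X') * prodX (z.map X') * Sx (z.map X' ++ [X' v]) with hh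
  set xs : List ℂ := z.map X' ++ dbl (b.map X') with hxs
  have hlen : xs.length = 2 * n := by
    rw [hxs]; simp [length_dbl]; omega
  have hd : h.natDegree ≤ 3 * n := by
    have h3 := natDegree_mul_le_of_le (natDegree_prodT_le (b.map X'))
      (natDegree_prodX_le (z.map X'))
    have h4 := natDegree_mul_le_of_le h3 (Sx_natDegree (z.map X' ++ [X' v]))
    rw [hh]
    refine h4.trans ?_
    simp only [List.length_map, List.length_append, List.length_singleton]
    omega
  obtain ⟨P, hP, hP'⟩ := D_deg h xs n hlen hd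
  refine ⟨P, hP, fun d => ?_⟩
  rw [← hP', hxs]
  unfold Reven
  rw [← hh]
  simp

theorem Reven_degv (m : ℕ) (z b : List ℂ) (d : ℂ) (hm : z.length = 2 * m) :
    ∃ P : ℂ[X], P.natDegree ≤ m ∧ ∀ v, Reven z v b d = P.eval (X' v) := by
  obtain ⟨Q, hQ, hQ'⟩ := Sx_deg2 (z.map X')
  set xs : List ℂ := z.map X' ++ (dbl (b.map X') ++ [X' d]) with hxs
  have hne : xs ≠ [] := by rw [hxs]; simp
  set g : ℂ[X] := prodT (b.map X') * prodX (z.map X') with hg
  refine ⟨∑ j ∈ Finset.range (z.length + 2), C (D (g * X ^ j) xs) * Q j, ?_, ?_⟩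
  · apply natDegree_sum_le_of_forall_le
    intro j _
    refine (natDegree_C_mul_le _ _).trans ((hQ j).trans ?_)
    rw [List.length_map]; omega
  · intro v
    unfold Reven
    rw [← hg, ← hxs]
    have hdeg : (Sx (z.map X' ++ [X' v])).natDegree < z.length + 2 := by
      refine lt_of_le_of_lt (Sx_natDegree _) ?_
      simp only [List.length_append, List.length_map, List.length_singleton]
      omega
    have e1 : g * Sx (z.map X' ++ [X' v]) =
        ∑ j ∈ Finset.range (z.length + 2), C ((Q j).eval (X' v)) * (g * X ^ j) := by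
      conv_lhs => rw [(Sx (z.map X' ++ [X' v])).as_sum_range_C_mul_X_pow' hdeg]
      rw [Finset.mul_sum]
      apply Finset.sum_congr rfl
      intro j _
      rw [hQ']; ring
    rw [e1, D_sum _ _ hne, eval_finsetSum]
    apply Finset.sum_congr rfl
    intro j _
    rw [D_C_mul _ _ hne]
    simp only [eval_mul, eval_C]
    ring

theorem Rodd_degb (z α d : ℂ) :
    ∃ P : ℂ[X], P.natDegree ≤ 4 ∧ ∀ x, Rodd q [z] α [x] d = P.eval (X' x) := by
  set Z := X' z with hZ
  set A := X' α with hA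
  set A' := X' (q * α) with hA'
  set E := X' d with hE
  refine ⟨(C (Z + A) + X) * ((C (Z + A) + 2 * X) * (C (E ^ 2) + (2 * X - C A') * C E + 3 * X ^ 2 -
      2 * C A' * X - 3) - (X - C A') * (3 * X ^ 2 - 3)) - (C (Z ^ 2 + A ^ 2 + Z * A - 3) +
      X ^ 2 + C (Z + A) * X) * (C (E ^ 2) + (2 * X - C A') * C E + 3 * X ^ 2 -
      2 * C A' * X - 3), ?_, ?_⟩
  · compute_degree
  · intro x
    set B := X' x with hB
    unfold Rodd
    simp only [List.map_cons, List.map_nil, dbl, List.nil_append, List.cons_append]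
    rw [Sx_single, ← hZ, ← hA, ← hA', ← hB, ← hE]
    rw [D_five]
    have e1 : (X - C A) * (X - C A') * prodT [B] * prodX [Z] * 1 =
        (X - C Z) * ((X - C A) * ((X - C B) * (X ^ 3 + C (B - A') * X ^ 2 +
          C (B ^ 2 - 3 - A' * B) * X + C (-A' * (B ^ 2 - 3))))) := by
      have e0 : prodT [B] = T - C (B ^ 3 - 3 * B) := by simp [prodT, T_eval]
      rw [e0]
      simp only [prodX, List.map_cons, List.map_nil, List.prod_cons, List.prod_nil,
        mul_one, T]
      simp only [C_sub, C_mul, C_pow, C_neg]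
      have h3 : (C 3 : ℂ[X]) = 3 := map_ofNat C 3
      rw [h3]; ring
    rw [e1]
    simp only [dd]
    rw [div_mul_self, div_mul_self, div_mul_self, div_cub]
    simp only [eval_mul, eval_sub, eval_add, eval_X, eval_C, eval_pow, sub_self, zero_mul,
      eval_ofNat]
    ring

end Pool.Agent.H5.LStrip
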