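import Pool.Agent.H5.LStrip.RRec
import Pool.Agent.H1.LStrip.Interp

/-! The right-hand side satisfies all statements of `RSide`. -/

set_option autoImplicit false
open Polynomial

namespace Pool.Agent.H5.LStrip

open Pool.Agent.H72.Cardy (X' dbl Rodd Reven)

theorem rside {q : ℂ} (hq : q ^ 2 + q + 1 = 0) :
    Pool.Agent.H1.LStrip.RSide q (Rodd q) Reven where
  odd_perm := fun z z' b b' α d h1 h2 => Rodd_perm z z' b b' α d h1 h2
  even_perm := fun z z' b b' v d h1 h2 => Reven_perm z z' b b' v d h1 h2
  odd_X' := fun z z' b b' α d d' h1 h2 h3 => by unfold Rodd; rw [h1, h2, h3]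
  even_X' := fun z z' b b' v v' d d' h1 h2 h3 h4 => by unfold Reven; rw [h1, h2, h3, h4]
  odd_i := fun z x b d h0 => Rodd_i hq z x b d h0
  odd_ii := fun z α b d h0 => Rodd_ii hq z α b d h0
  even_iii := fun z x b d h0 => Reven_iii hq z x b d h0
  odd_v := fun z α b x h0 => Rodd_v hq z α b x h0
  even_v := fun z v b x h0 => Reven_v hq z v b x h0
  odd_vi := fun z α b x d h0 hx => Rodd_vi hq z α b x d h0 hx
  odd_base := fun z α d h0 => Rodd_base z α d h0
  even_base := fun v d => Reven_base v d
  odd_degα := fun n z b d hn => Rodd_degα hq n z b d hn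
  odd_degd := fun n z b α hn => Rodd_degd n z b α hn
  odd_degb := fun z α d => Rodd_degb z α d
  even_degv := fun m z b d hm => Reven_degv m z b d hm
  even_degd := fun n z b v hn => Reven_degd n z b v hn

end Pool.Agent.H5.LStrip
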